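import Pool.Agent.H40.TW.Targets2
import Pool.Agent.H19.SH.FAR

/-!
# In most formulas every point violates many clauses, for all large `C`
-/

namespace Pool.Agent.H59.TW

open Finset Pool.Agent.H80.SH Pool.Agent.H40.TW Pool.Agent.H19.SH

theorem pf_FAR2 : T_FAR2 := by
  classical
  intro ε h0
  rcases le_or_gt 1 ε with h1 | h1
  · refine ⟨1, le_refl 1, fun C _ X α _ _ _ _ _ V n w _ _ _ => ⟨∅, by simp, fun F _ x => ?_⟩⟩
    refine le_trans (mul_nonpos_of_nonpos_of_nonneg (by linarith) (by positivity)) ?_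
    positivity
  · obtain ⟨C₁, hC₁⟩ := exists_nat_ge (6 / ε ^ 2)
    have hC1 : 1 ≤ C₁ := by
      have h2 : (0 : ℝ) < C₁ := lt_of_lt_of_le (by positivity) hC₁
      exact_mod_cast h2
    refine ⟨C₁, hC1, fun C hCC X α _ _ _ _ _ V n w hn hX hV => ?_⟩
    have hC : 6 / ε ^ 2 ≤ (C : ℝ) := hC₁.trans (by exact_mod_cast hCC)
    let Bx : X → Finset (Fin (C * n * 2 ^ w) → α) := fun x =>
      univ.filter fun F => ((univ.filter (fun j => x ∈ V (F j))).card : ℝ) <
        (1 - ε) * (C * n : ℝ)
    refine ⟨univ.biUnion Bx, ?_, fun F hF x => ?_⟩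
    · have h2 : ((univ.biUnion Bx).card : ℝ) ≤ 2 ^ n *
          ((Fintype.card α : ℝ) ^ (C * n * 2 ^ w) * Real.exp (-(3 * n))) := by
        have h3 : ((univ.biUnion Bx).card : ℝ) ≤ ∑ x, ((Bx x).card : ℝ) := by
          exact_mod_cast card_biUnion_le
        refine h3.trans ?_
        refine (sum_le_sum fun x _ => bad_card V C n w ε h0 hC x (hV x) (Bx x)
          fun F hF => (mem_filter.1 hF).2).trans ?_
        rw [sum_const, card_univ, hX, nsmul_eq_mul]
        push_cast
        exact le_refl _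
      have h3 : 4 * (2 : ℝ) ^ n * Real.exp (-(3 * n)) ≤ 1 := by
        rw [Real.exp_neg, ← div_eq_mul_inv, div_le_one (Real.exp_pos _)]
        have h4 : (8 : ℝ) ≤ Real.exp 3 := by
          have h5 := Real.exp_one_gt_d9
          have h6 : Real.exp 3 = Real.exp 1 ^ 3 := by
            rw [← Real.exp_nat_mul]
            norm_num
          rw [h6]
          calc (8 : ℝ) ≤ (2.7182818283 : ℝ) ^ 3 := by norm_num
            _ ≤ _ := pow_le_pow_left₀ (by norm_num) h5.le 3
        calc 4 * (2 : ℝ) ^ n ≤ 4 ^ n * 2 ^ n := by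
              refine mul_le_mul_of_nonneg_right ?_ (by positivity)
              calc (4 : ℝ) = 4 ^ 1 := by norm_num
                _ ≤ 4 ^ n := pow_le_pow_right₀ (by norm_num) hn
          _ = 8 ^ n := by
              rw [← mul_pow]
              norm_num
          _ ≤ Real.exp 3 ^ n := pow_le_pow_left₀ (by norm_num) h4 n
          _ = Real.exp (3 * n) := by
              rw [← Real.exp_nat_mul]
              congr 1
              ring
      have h4 : (4 * (univ.biUnion Bx).card : ℝ) ≤ (Fintype.card α : ℝ) ^ (C * n * 2 ^ w) := by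
        calc (4 * (univ.biUnion Bx).card : ℝ)
            ≤ 4 * (2 ^ n * ((Fintype.card α : ℝ) ^ (C * n * 2 ^ w) * Real.exp (-(3 * n)))) :=
              mul_le_mul_of_nonneg_left h2 (by norm_num)
          _ = (Fintype.card α : ℝ) ^ (C * n * 2 ^ w) *
              (4 * (2 : ℝ) ^ n * Real.exp (-(3 * n))) := by ring
          _ ≤ (Fintype.card α : ℝ) ^ (C * n * 2 ^ w) * 1 :=
              mul_le_mul_of_nonneg_left h3 (by positivity)
          _ = _ := mul_one _
      exact_mod_cast h4
    · by_contra hcon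
      exact hF (mem_biUnion.2 ⟨x, mem_univ _, mem_filter.2 ⟨mem_univ _, not_le.1 hcon⟩⟩)

end Pool.Agent.H59.TW
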