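import Pool.Agent.H40.TW.Targets

/-!
# Binomial tail and the union bound over the path sets
-/

namespace Pool.Agent.H59.TW

open Finset Pool.Agent.H80.SH Pool.Agent.H40.TW

lemma pow_self_le (T : ℕ) : (T : ℝ) ^ T ≤ 3 ^ T * (T.factorial : ℝ) := by
  have h1 := Real.pow_div_factorial_le_exp (T : ℝ) (Nat.cast_nonneg T) T
  have h2 : (0 : ℝ) < T.factorial := by exact_mod_cast T.factorial_pos
  rw [div_le_iff₀ h2] at h1
  refine h1.trans (mul_le_mul_of_nonneg_right ?_ h2.le)
  have h3 : Real.exp (T : ℝ) = Real.exp 1 ^ T := by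
    rw [← Real.exp_nat_mul, mul_one]
  rw [h3]
  refine pow_le_pow_left₀ (Real.exp_pos 1).le ?_ T
  have := Real.exp_one_lt_d9
  linarith

lemma choose_mul_pow_le (r T : ℕ) : (r.choose T : ℝ) * (T : ℝ) ^ T ≤ (3 * r : ℝ) ^ T := by
  have h2 : (0 : ℝ) < T.factorial := by exact_mod_cast T.factorial_pos
  have h1 : (r.choose T : ℝ) ≤ (r : ℝ) ^ T / T.factorial := Nat.choose_le_pow_div T r
  calc (r.choose T : ℝ) * (T : ℝ) ^ T
      ≤ (r : ℝ) ^ T / T.factorial * (3 ^ T * (T.factorial : ℝ)) :=
        mul_le_mul h1 (pow_self_le T) (by positivity) (by positivity)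
    _ = (3 * r : ℝ) ^ T := by
        rw [mul_pow]
        field_simp

lemma card_forced {α : Type} [Fintype α] [DecidableEq α] (r T : ℕ) (D : Finset α)
    (J : Finset (Fin r)) (hJ : J.card = T) :
    (univ.filter (fun F : Fin r → α => ∀ j ∈ J, F j ∈ D)).card =
      D.card ^ T * Fintype.card α ^ (r - T) := by
  classical
  have h1 : univ.filter (fun F : Fin r → α => ∀ j ∈ J, F j ∈ D) =
      Fintype.piFinset (fun j => if j ∈ J then D else univ) := by
    ext F
    simp only [mem_filter, mem_univ, true_and, Fintype.mem_piFinset]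
    constructor
    · intro h j
      by_cases hj : j ∈ J
      · rw [if_pos hj]
        exact h j hj
      · rw [if_neg hj]
        exact mem_univ _
    · intro h j hj
      have := h j
      rwa [if_pos hj] at this
  rw [h1, Fintype.card_piFinset]
  have h2 : ∀ j : Fin r, (if j ∈ J then D else univ).card =
      if j ∈ J then D.card else Fintype.card α := by
    intro j
    split_ifs <;> simp
  rw [prod_congr rfl fun j _ => h2 j, prod_ite, prod_const, prod_const]
  have h3 : (univ.filter fun j => j ∈ J) = J := by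
    ext j
    simp
  have h4 : (univ.filter fun j => j ∉ J) = Jᶜ := by
    ext j
    simp
  rw [h3, h4, card_compl, Fintype.card_fin, hJ]

theorem pf_TAI : T_TAI := by
  classical
  intro α _ _ r T K D hT hK hr
  refine ⟨univ.filter (fun F => T ≤ (univ.filter (fun j => F j ∈ D)).card), ?_, fun F hF => ?_⟩
  swap
  · by_contra hcon
    exact hF (mem_filter.2 ⟨mem_univ _, not_lt.1 hcon⟩)
  set B := univ.filter (fun F : Fin r → α => T ≤ (univ.filter (fun j => F j ∈ D)).card) with hB
  rcases Nat.eq_zero_or_pos B.card with h0 | h0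
  · rw [h0, mul_zero]
    exact Nat.zero_le _
  obtain ⟨F₀, hF₀⟩ := card_pos.1 h0
  have hTr : T ≤ r := by
    refine (mem_filter.1 hF₀).2.trans ((card_le_univ _).trans ?_)
    rw [Fintype.card_fin]
  have hcard : B.card ≤ r.choose T * (D.card ^ T * Fintype.card α ^ (r - T)) := by
    have h1 : B ⊆ ((univ : Finset (Fin r)).powersetCard T).biUnion
        (fun J => univ.filter (fun F : Fin r → α => ∀ j ∈ J, F j ∈ D)) := by
      intro F hF
      obtain ⟨J, hJ1, hJ2⟩ := exists_subset_card_eq (mem_filter.1 hF).2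
      refine mem_biUnion.2 ⟨J, mem_powersetCard.2 ⟨subset_univ _, hJ2⟩, ?_⟩
      exact mem_filter.2 ⟨mem_univ _, fun j hj => (mem_filter.1 (hJ1 hj)).2⟩
    refine (card_le_card h1).trans (card_biUnion_le.trans ?_)
    rw [sum_congr rfl fun J hJ => card_forced r T D J (mem_powersetCard.1 hJ).2, sum_const,
      card_powersetCard, card_univ, Fintype.card_fin, smul_eq_mul]
  have hT0 : (0 : ℝ) < T := by exact_mod_cast hT
  have hKT : (8 * r : ℝ) ≤ K * T := by exact_mod_cast hr
  have hKD : (K * D.card : ℝ) ≤ Fintype.card α := by exact_mod_cast hK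
  have hr0 : (0 : ℝ) < r := by
    have : 0 < r := lt_of_lt_of_le hT hTr
    exact_mod_cast this
  have hK0 : (0 : ℝ) < K := by
    by_contra hcon
    have h1 : (K : ℝ) * T ≤ 0 := mul_nonpos_of_nonpos_of_nonneg (not_lt.1 hcon) hT0.le
    linarith
  have hreal : (2 : ℝ) ^ T * B.card ≤ (Fintype.card α : ℝ) ^ r := by
    have h1 : (B.card : ℝ) ≤ r.choose T * ((D.card : ℝ) ^ T * (Fintype.card α : ℝ) ^ (r - T)) := by
      exact_mod_cast hcard
    have hA : (0 : ℝ) ≤ (Fintype.card α : ℝ) ^ (r - T) := by positivity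
    -- multiply by `(K T) ^ T`
    have hpos : (0 : ℝ) < (K * T : ℝ) ^ T := by positivity
    refine le_of_mul_le_mul_left ?_ hpos
    calc (K * T : ℝ) ^ T * (2 ^ T * B.card)
        ≤ (K * T : ℝ) ^ T * (2 ^ T * (r.choose T *
            ((D.card : ℝ) ^ T * (Fintype.card α : ℝ) ^ (r - T)))) :=
          mul_le_mul_of_nonneg_left (mul_le_mul_of_nonneg_left h1 (by positivity)) hpos.le
      _ = 2 ^ T * ((r.choose T : ℝ) * (T : ℝ) ^ T) *
            ((K * D.card : ℝ) ^ T * (Fintype.card α : ℝ) ^ (r - T)) := by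
          rw [mul_pow, mul_pow]
          ring
      _ ≤ 2 ^ T * (3 * r : ℝ) ^ T *
            ((Fintype.card α : ℝ) ^ T * (Fintype.card α : ℝ) ^ (r - T)) := by
          refine mul_le_mul (mul_le_mul_of_nonneg_left (choose_mul_pow_le r T) (by positivity))
            (mul_le_mul_of_nonneg_right (pow_le_pow_left₀ (by positivity) hKD T) hA)
            (by positivity) (by positivity)
      _ = (6 * r : ℝ) ^ T * (Fintype.card α : ℝ) ^ r := by
          rw [← pow_add, Nat.add_sub_cancel' hTr, ← mul_pow]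
          congr 2
          ring
      _ ≤ (K * T : ℝ) ^ T * (Fintype.card α : ℝ) ^ r := by
          refine mul_le_mul_of_nonneg_right (pow_le_pow_left₀ (by positivity) ?_ T) (by positivity)
          linarith
  exact_mod_cast hreal

theorem pf_GOO : T_GOO := by
  classical
  intro X α _ _ _ _ V L r g H T M K hT hden hr hPS
  have h1 : ∀ P : Finset X, ∃ B : Finset (Fin r → α), 2 ^ g ≤ P.card →
      2 ^ T * B.card ≤ Fintype.card α ^ r ∧
      ∀ F, F ∉ B → (univ.filter (fun j => F j ∈ dense V H P)).card < T := by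
    intro P
    by_cases hP : 2 ^ g ≤ P.card
    · obtain ⟨B, hB⟩ := pf_TAI α r T K (dense V H P) hT (hden P hP) hr
      exact ⟨B, fun _ => hB⟩
    · exact ⟨∅, fun h => absurd h hP⟩
  choose B hB using h1
  refine ⟨((PS L M).filter (fun P => 2 ^ g ≤ P.card)).biUnion B, ?_, fun F hF P hP hg => ?_⟩
  · have h2 : 2 ^ T * (((PS L M).filter (fun P => 2 ^ g ≤ P.card)).biUnion B).card ≤
        (PS L M).card * Fintype.card α ^ r := by
      calc 2 ^ T * (((PS L M).filter (fun P => 2 ^ g ≤ P.card)).biUnion B).card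
          ≤ 2 ^ T * ∑ P ∈ (PS L M).filter (fun P => 2 ^ g ≤ P.card), (B P).card :=
            Nat.mul_le_mul_left _ card_biUnion_le
        _ = ∑ P ∈ (PS L M).filter (fun P => 2 ^ g ≤ P.card), 2 ^ T * (B P).card := by
            rw [mul_sum]
        _ ≤ ∑ _P ∈ (PS L M).filter (fun P => 2 ^ g ≤ P.card), Fintype.card α ^ r :=
            sum_le_sum fun P hP => (hB P (mem_filter.1 hP).2).1
        _ ≤ (PS L M).card * Fintype.card α ^ r := by
            rw [sum_const, smul_eq_mul]
            exact Nat.mul_le_mul_right _ (card_le_card (filter_subset _ _))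
    have h3 : 2 ^ T * (4 * (((PS L M).filter (fun P => 2 ^ g ≤ P.card)).biUnion B).card) ≤
        2 ^ T * Fintype.card α ^ r := by
      calc 2 ^ T * (4 * (((PS L M).filter (fun P => 2 ^ g ≤ P.card)).biUnion B).card)
          = 4 * (2 ^ T * (((PS L M).filter (fun P => 2 ^ g ≤ P.card)).biUnion B).card) := by ring
        _ ≤ 4 * ((PS L M).card * Fintype.card α ^ r) := Nat.mul_le_mul_left _ h2
        _ = (4 * (PS L M).card) * Fintype.card α ^ r := by ring
        _ ≤ 2 ^ T * Fintype.card α ^ r := Nat.mul_le_mul_right _ hPS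
    exact Nat.le_of_mul_le_mul_left h3 (by positivity)
  · have h4 : F ∉ B P := fun h => hF (mem_biUnion.2 ⟨P, mem_filter.2 ⟨hP, hg⟩, h⟩)
    have h5 := (hB P hg).2 F h4
    have h6 : dense (fun j => V (F j)) H P = univ.filter (fun j => F j ∈ dense V H P) := by
      ext j
      simp only [dense, mem_filter, mem_univ, true_and]
    rw [h6]
    exact h5.le

end Pool.Agent.H59.TW
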